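import Pool.Agent.Helper78.DR.Dih7

/-!
# MP_1d885e_al: steps whose normal closure is at most quadratic over them

`D` is a division ring with center `F`, `i : L → D` an embedding of a field whose image contains
`F` and is spanned over `F` by finitely many elements, `b` an element which commutes with `i(L)`
and is a root of a separable irreducible polynomial `f` over `L` of degree `n > 1` whose Galois
group has at most `2 n` elements (for instance a dihedral group of order `2 n`).
-/

set_option autoImplicit false

namespace Pool.Agent.Results.MP_1d885e_al.DihedralSteps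

theorem result :
    ∀ (D : Type) [DivisionRing D] (L : Type) [Field L] (i : L →+* D),
      (∀ x : D, (∀ y : D, y * x = x * y) → ∃ l, i l = x) →
      (∃ s : Finset D, (∀ t ∈ s, ∃ l, i l = t) ∧
        ∀ l : L, ∃ c : D → D, (∀ t ∈ s, ∀ y : D, c t * y = y * c t) ∧
          i l = ∑ t ∈ s, c t * t) →
      ∀ b : D, (∀ l : L, b * i l = i l * b) →
      ∀ f : Polynomial L, Irreducible f → f.Separable → 1 < f.natDegree →
        Nat.card f.Gal ≤ 2 * f.natDegree → f.eval₂ i b = 0 →
      ∃ K : Subfield D,
        (∃ a ∈ K, ∃ b ∈ K, a * b ≠ b * a) ∧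
        ∃ s : Finset D, (∀ t ∈ s, t ∈ K) ∧
          ∀ x ∈ K, ∃ c : D → D,
            (∀ t ∈ s, c t ∈ K ∧ ∀ y ∈ K, c t * y = y * c t) ∧
            x = ∑ t ∈ s, c t * t := by
  intro D _ L _ i h1 h2 b h3 f h4 h5 h6 h7 h8
  exact Pool.Agent.Helper78.DR.main_dih i h1 h2 b h3 f h4 h5 h6 h7 h8

end Pool.Agent.Results.MP_1d885e_al.DihedralSteps
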