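import Pool.Agent.Helper91.KZ.Fin2

/-!
# MP_1d885e_al: primary components of algebraic division rings over uncountable perfect centres
-/

namespace Pool.Agent.Results.MP_1d885e_al.PrimaryDichotomy

open TensorProduct Pool.Agent.Helper91.KZ

universe u

/-- Let `D` be a division ring, algebraic over its centre `F`, where `F` is uncountable and perfect, and let `p` be a
prime that divides the degree of some element of `D`. Then either `D = K ⊗ C` with `K` central of degree `p ^ e > 1`
and no element of `C` of degree divisible by `p` (so that `D` satisfies the assertion of the problem), or the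
`p`-parts of the degrees are unbounded and `F` has, for every `j`, a finite extension over which some tensor product
of `j` cyclic algebras of degree `p` is a division algebra. -/
theorem result (F D : Type u) [Field F] [Uncountable F] [PerfectField F] [DivisionRing D]
    [Algebra F D] [Algebra.IsCentral F D] [Algebra.IsAlgebraic F D] (p : ℕ) (hp : p.Prime)
    (hpD : ∃ x : D, p ∣ (minpoly F x).natDegree) :
    ((∃ (e : ℕ) (K C : Type u) (_ : DivisionRing K) (_ : Algebra F K) (_ : DivisionRing C)
        (_ : Algebra F C), 0 < e ∧ Algebra.IsCentral F K ∧ Module.finrank F K = (p ^ e) ^ 2 ∧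
        Algebra.IsCentral F C ∧ Algebra.IsAlgebraic F C ∧
        (∀ c : C, ¬ p ∣ (minpoly F c).natDegree) ∧
        (∀ x : D, ¬ p ^ (e + 1) ∣ (minpoly F x).natDegree) ∧ Nonempty (K ⊗[F] C ≃ₐ[F] D)) ∧
      (∃ K : Subfield D, (∃ a ∈ K, ∃ b ∈ K, a * b ≠ b * a) ∧
        ∃ s : Finset D, (∀ t ∈ s, t ∈ K) ∧ ∀ x ∈ K, ∃ c : D → D,
          (∀ t ∈ s, c t ∈ K ∧ ∀ y ∈ K, c t * y = y * c t) ∧ x = ∑ t ∈ s, c t * t)) ∨
    ((∀ k : ℕ, ∃ x : D, p ^ k ∣ (minpoly F x).natDegree) ∧
      ∀ j : ℕ, ∃ (W K : Type u) (_ : Field W) (_ : Algebra F W) (_ : DivisionRing K)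
        (_ : Algebra W K), FiniteDimensional F W ∧ Algebra.IsCentral W K ∧
        IsCyclicProduct p W j K) := by
  rcases dichotomy F D p hp hpD with h | h
  · refine Or.inl ⟨h, ?_⟩
    obtain ⟨e, K, C, i1, i2, i3, i4, h1, h2, h3, h4, h5, h6, h7, h8⟩ := h
    exact posed F D K C p e hp h1 h2 h3 h8
  · exact Or.inr h

end Pool.Agent.Results.MP_1d885e_al.PrimaryDichotomy
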