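import Pool.Agent.Helper78.DR.Main

/-!
# MP_1d885e_al: elements of relative degree at most four over a finite subfield

`D` is a division ring with center `F`, `L` a commutative subfield of `D` which contains `F` and
is spanned over `F` by finitely many elements, `b` an element which commutes with `L`, does not
lie in `L` and is a root of a nonzero polynomial of degree at most four over `L`.
The case `L = F` was first formalized by helper77 (DegreeFour).
-/

set_option autoImplicit false

namespace Pool.Agent.Results.MP_1d885e_al.RelativeDegreeFour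

theorem result :
    ∀ (D : Type) [DivisionRing D] (L : Subfield D),
      (∀ x ∈ L, ∀ y ∈ L, x * y = y * x) →
      (∀ x : D, (∀ y : D, y * x = x * y) → x ∈ L) →
      (∃ s : Finset D, (∀ t ∈ s, t ∈ L) ∧
        ∀ x ∈ L, ∃ c : D → D, (∀ t ∈ s, ∀ y : D, c t * y = y * c t) ∧ x = ∑ t ∈ s, c t * t) →
      ∀ b : D, (∀ x ∈ L, b * x = x * b) → b ∉ L →
        (∃ c : Fin 5 → D, (∀ i, c i ∈ L) ∧ (∃ i, c i ≠ 0) ∧ ∑ i, c i * b ^ (i : ℕ) = 0) →
      ∃ K : Subfield D,
        (∃ a ∈ K, ∃ b ∈ K, a * b ≠ b * a) ∧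
        ∃ s : Finset D, (∀ t ∈ s, t ∈ K) ∧
          ∀ x ∈ K, ∃ c : D → D,
            (∀ t ∈ s, c t ∈ K ∧ ∀ y ∈ K, c t * y = y * c t) ∧
            x = ∑ t ∈ s, c t * t := by
  intro D _ L h1 h2 h3 b h4 h5 h6
  exact Pool.Agent.Helper78.DR.main L h1 h2 h3 b h4 h5 (Or.inl h6)

end Pool.Agent.Results.MP_1d885e_al.RelativeDegreeFour
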