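import Pool.Agent.Helper91.KZ.Fin2

/-!
# MP_1d885e_al: algebraic division rings whose centre is a field of finite transcendence degree
-/

namespace Pool.Agent.Results.MP_1d885e_al.TsenLangCentre

open TensorProduct Pool.Agent.Helper91.KZ

universe u

/-- Let `D` be a noncommutative division ring, algebraic over its centre `F`, where `F` is uncountable and perfect and
some finite extension `F'` of `F` has finite transcendence degree `m` over an algebraically closed field (or is a
`C_m` field in the form for systems). Then `D` contains a noncommutative centrally finite subdivision ring; for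
every prime `p` that divides the degree of an element, `D = K ⊗ C` with `K` central of degree `p ^ e > 1` and no
element of `C` of degree divisible by `p`; and `m ≥ 2` if `F' = F`. -/
theorem result (F F' D : Type u) [Field F] [Uncountable F] [PerfectField F] [Field F']
    [Algebra F F'] [FiniteDimensional F F'] [DivisionRing D] [Algebra F D] [Algebra.IsCentral F D]
    [Algebra.IsAlgebraic F D] (m : ℕ)
    (hF : IsTsenLang m F' ∨ ∃ (k : Type u) (_ : Field k) (_ : IsAlgClosed k) (_ : Algebra k F')
      (t : Fin m → F'), IsTranscendenceBasis k t) (hD : ∃ a b : D, a * b ≠ b * a) :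
    (∃ K : Subfield D, (∃ a ∈ K, ∃ b ∈ K, a * b ≠ b * a) ∧
      ∃ s : Finset D, (∀ t ∈ s, t ∈ K) ∧ ∀ x ∈ K, ∃ c : D → D,
        (∀ t ∈ s, c t ∈ K ∧ ∀ y ∈ K, c t * y = y * c t) ∧ x = ∑ t ∈ s, c t * t) ∧
    (∀ p : ℕ, p.Prime → (∃ x : D, p ∣ (minpoly F x).natDegree) →
      ∃ (e : ℕ) (K C : Type u) (_ : DivisionRing K) (_ : Algebra F K) (_ : DivisionRing C)
        (_ : Algebra F C), 0 < e ∧ Algebra.IsCentral F K ∧ Module.finrank F K = (p ^ e) ^ 2 ∧
        Algebra.IsCentral F C ∧ Algebra.IsAlgebraic F C ∧
        (∀ c : C, ¬ p ∣ (minpoly F c).natDegree) ∧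
        (∀ x : D, ¬ p ^ (e + 1) ∣ (minpoly F x).natDegree) ∧ Nonempty (K ⊗[F] C ≃ₐ[F] D)) ∧
    (Module.finrank F F' = 1 → 2 ≤ m) :=
  tsenlang F F' D m hF hD

end Pool.Agent.Results.MP_1d885e_al.TsenLangCentre
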